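import Pool.Agent.Y18.LC.Stm
import Pool.Agent.W254.PA.LeoH
import Pool.Agent.W253.LF.Crit
import Pool.Agent.W289.SL.LogEx

/-!
# Project LC, job LC-BRU: Leopoldt's conjecture for abelian fields
-/

set_option autoImplicit false

namespace Pool.Agent.Y944.LC

open Finset NumberField Filter Topology Pool.Agent.H637R2.Leo
open Pool.Agent.W254.PA (ic norm_ic exists_norm_pow exists_pow_near gal_groups PolyExp)

section
variable {p : ℕ} [hp : Fact p.Prime] {L : ℂ_[p] → ℂ_[p]}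
  (hL : Pool.Agent.W289.SL.IsIwasawaLog p L)

include hL in
lemma pre_near (z : PadicAlgCl p) (hz : ‖z‖ < 1) : ∃ y : PadicAlgCl p, ic p y = L (1 + ic p z) := by
  let F := IntermediateField.adjoin ℚ_[p] ({z} : Set (PadicAlgCl p))
  haveI : FiniteDimensional ℚ_[p] F :=
    IntermediateField.adjoin.finiteDimensional (Algebra.IsIntegral.isIntegral z)
  have hzF : z ∈ F := IntermediateField.mem_adjoin_simple_self ℚ_[p] z
  let S : Submodule ℚ_[p] ℂ_[p] := (Subalgebra.toSubmodule F.toSubalgebra).map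
    (IsScalarTower.toAlgHom ℚ_[p] (PadicAlgCl p) ℂ_[p]).toLinearMap
  haveI : FiniteDimensional ℚ_[p] (Subalgebra.toSubmodule F.toSubalgebra) :=
    inferInstanceAs (FiniteDimensional ℚ_[p] F)
  haveI : FiniteDimensional ℚ_[p] S := inferInstance
  have hcl : IsClosed (S : Set ℂ_[p]) := Submodule.closed_of_finiteDimensional S
  have hz' : ‖ic p z‖ < 1 := by rwa [norm_ic]
  have hs := hL.ser (ic p z) hz'
  have hmem : L (1 + ic p z) ∈ S := by
    refine hcl.mem_of_tendsto hs (Eventually.of_forall fun s => ?_)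
    refine Submodule.sum_mem _ fun n _ => ?_
    refine ⟨(-1 : PadicAlgCl p) ^ n * z ^ (n + 1) / ((n : PadicAlgCl p) + 1), ?_, ?_⟩
    · have h1 : (-1 : PadicAlgCl p) ^ n * z ^ (n + 1) / ((n : PadicAlgCl p) + 1) ∈ F := by
        refine div_mem (mul_mem (pow_mem (neg_mem (one_mem _)) _) (pow_mem hzF _)) ?_
        exact add_mem (natCast_mem _ _) (one_mem _)
      exact h1
    · change ic p ((-1 : PadicAlgCl p) ^ n * z ^ (n + 1) / ((n : PadicAlgCl p) + 1)) =
        (-1 : ℂ_[p]) ^ n * (ic p z) ^ (n + 1) / ((n : ℂ_[p]) + 1)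
      rw [map_div₀, map_mul, map_pow, map_pow, map_neg, map_one, map_add, map_natCast, map_one]
  obtain ⟨y, -, hy⟩ := hmem
  exact ⟨y, hy⟩

include hL in
lemma pre_all (x : PadicAlgCl p) (hx : x ≠ 0) : ∃ y : PadicAlgCl p, ic p y = L (ic p x) := by
  have hpne : (p : PadicAlgCl p) ≠ 0 := Nat.cast_ne_zero.2 hp.out.ne_zero
  obtain ⟨N, hN, a, ha⟩ := exists_norm_pow p x hx
  obtain ⟨M, hM, hM2⟩ := exists_pow_near p (x ^ N * (p : PadicAlgCl p) ^ a) ha 1 one_pos
  set v := x ^ N * (p : PadicAlgCl p) ^ a with hv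
  obtain ⟨y, hy⟩ := pre_near hL (v ^ M - 1) hM2
  have hicx : ic p x ≠ 0 := (map_ne_zero _).2 hx
  have hicp : ic p (p : PadicAlgCl p) ≠ 0 := (map_ne_zero _).2 hpne
  have hv0 : v ≠ 0 := mul_ne_zero (pow_ne_zero _ hx) (zpow_ne_zero _ hpne)
  have hLp : ∀ b : ℤ, L ((ic p (p : PadicAlgCl p)) ^ b) = 0 := by
    intro b
    have h0 : L (ic p (p : PadicAlgCl p)) = 0 := by rw [map_natCast]; exact hL.prime
    obtain ⟨n, rfl | rfl⟩ := b.eq_nat_or_neg
    · rw [zpow_natCast, hL.pow hicp, h0, mul_zero]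
    · rw [zpow_neg, zpow_natCast, hL.inv (pow_ne_zero _ hicp), hL.pow hicp, h0, mul_zero, neg_zero]
  have hLv : L (ic p (v ^ M)) = ((M * N : ℕ) : ℂ_[p]) * L (ic p x) := by
    rw [map_pow, hL.pow ((map_ne_zero _).2 hv0), hv, map_mul, map_pow, map_zpow₀,
      hL.mul _ _ (pow_ne_zero _ hicx) (zpow_ne_zero _ hicp), hL.pow hicx, hLp]
    push_cast
    ring
  have h3 : 1 + ic p (v ^ M - 1) = ic p (v ^ M) := by rw [map_sub, map_one]; ring
  rw [h3, hLv] at hy
  have hMN : ((M * N : ℕ) : ℂ_[p]) ≠ 0 := by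
    have : M * N ≠ 0 := Nat.mul_ne_zero (by omega) (by omega)
    exact_mod_cast this
  refine ⟨y / ((M * N : ℕ) : PadicAlgCl p), ?_⟩
  rw [map_div₀, hy, map_natCast]
  field_simp

open Classical in
/-- the logarithm on the algebraic closure -/
noncomputable def La (L : ℂ_[p] → ℂ_[p]) (x : PadicAlgCl p) : PadicAlgCl p :=
  if h : ∃ y : PadicAlgCl p, ic p y = L (ic p x) then h.choose else 0

include hL in
lemma ic_La (x : PadicAlgCl p) (hx : x ≠ 0) : ic p (La L x) = L (ic p x) := by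
  unfold La
  rw [dif_pos (pre_all hL x hx)]
  exact (pre_all hL x hx).choose_spec

lemma isInducing_ic : IsInducing (ic p) := by
  have h : Isometry (ic p) := by
    refine AddMonoidHomClass.isometry_of_norm (ic p) fun x => norm_ic x
  exact h.isEmbedding.isInducing

include hL in
lemma isLog_La : Pool.Agent.W245.PB.IsIwasawaLog p (La L) where
  mul x y hx hy := by
    apply (ic p).injective
    rw [map_add, ic_La hL _ (mul_ne_zero hx hy), ic_La hL _ hx, ic_La hL _ hy, map_mul]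
    exact hL.mul _ _ ((map_ne_zero _).2 hx) ((map_ne_zero _).2 hy)
  prime := by
    apply (ic p).injective
    rw [ic_La hL _ (Nat.cast_ne_zero.2 hp.out.ne_zero), map_natCast, map_zero]
    exact hL.prime
  ser z hz := by
    have h1 : (1 : PadicAlgCl p) + z ≠ 0 := by
      intro h
      have h2 : z = -1 := by linear_combination h
      rw [h2, norm_neg, norm_one] at hz
      exact lt_irrefl _ hz
    rw [← isInducing_ic.hasSum_iff]
    have h2 := hL.ser (ic p z) (by rwa [norm_ic])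
    rw [ic_La hL _ h1, map_add, map_one]
    refine h2.congr_fun ?_
    intro n
    simp

end

section
variable {E : Type} [Field E] [NumberField E] {p : ℕ} [hp : Fact p.Prime] {L : ℂ_[p] → ℂ_[p]}

open Pool.Agent.W253.LF in
lemma rel_of_lim (hL : Pool.Agent.W289.SL.IsIwasawaLog p L) (n : ℕ) (ε : Fin n → (𝓞 E)ˣ)
    (a : Fin n → PadicInt p) (m : ℕ → Fin n → ℤ)
    (hma : ∀ i, Tendsto (fun k => ((m k i : ℤ) : PadicInt p)) atTop (𝓝 (a i)))
    (hdiv : ∀ N : ℕ, ∀ᶠ k in atTop,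
        ((p : ℕ) : 𝓞 E) ^ N ∣ (((∏ i, ε i ^ m k i : (𝓞 E)ˣ) : 𝓞 E) - 1))
    (σ : E →+* ℂ_[p]) :
    ∑ i, algebraMap ℚ_[p] ℂ_[p] (a i : ℚ_[p]) * L (σ ((ε i : 𝓞 E) : E)) = 0 := by
  have hj : Continuous (fun x : PadicInt p => algebraMap ℚ_[p] ℂ_[p] (x : ℚ_[p])) :=
    (continuous_algebraMap ℚ_[p] ℂ_[p]).comp continuous_subtype_val
  have h1 := tendsto_zero hL σ (fun k => ∏ i, ε i ^ m k i) hdiv
  have h2 : ∀ k, L (σ (((∏ i, ε i ^ m k i : (𝓞 E)ˣ) : 𝓞 E) : E)) =
      ∑ i, algebraMap ℚ_[p] ℂ_[p] (((m k i : ℤ) : PadicInt p) : ℚ_[p]) *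
        L (σ ((ε i : 𝓞 E) : E)) := by
    intro k
    have h3 := congrFun (Lam_prod hL ε (m k)) σ
    rw [Lam_apply] at h3
    rw [h3, Finset.sum_apply]
    refine Finset.sum_congr rfl fun i _ => ?_
    rw [Pi.smul_apply, smul_eq_mul, Lam_apply]
    congr 1
    simp
  simp only [h2] at h1
  have h4 : Tendsto (fun k => ∑ i, algebraMap ℚ_[p] ℂ_[p] (((m k i : ℤ) : PadicInt p) : ℚ_[p]) *
        L (σ ((ε i : 𝓞 E) : E))) atTop
      (𝓝 (∑ i, algebraMap ℚ_[p] ℂ_[p] (a i : ℚ_[p]) * L (σ ((ε i : 𝓞 E) : E)))) := by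
    refine tendsto_finsetSum _ fun i _ => ?_
    exact ((hj.tendsto (a i)).comp (hma i)).mul_const _
  exact tendsto_nhds_unique h4 h1

end

theorem bru : Pool.Agent.Y18.LC.BRU := by
  intro E _ _ p hp hgal hcomm n ε _ hind a m hma hdiv
  haveI := hgal
  obtain ⟨L, hL⟩ := Pool.Agent.W289.SL.exists_iwasawaLog p
  have hLa := isLog_La hL
  set b : Fin n → PadicAlgCl p := fun i => algebraMap ℚ_[p] (PadicAlgCl p) (a i : ℚ_[p]) with hb
  have hrel : ∀ σ : E →+* PadicAlgCl p, ∑ i, b i * La L (σ ((ε i : 𝓞 E) : E)) = 0 := by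
    intro σ
    apply (ic p).injective
    rw [map_sum, map_zero, ← rel_of_lim hL n ε a m hma hdiv ((ic p).comp σ)]
    refine Finset.sum_congr rfl fun i _ => ?_
    have hne : σ ((ε i : 𝓞 E) : E) ≠ 0 := by
      rw [map_ne_zero]
      exact_mod_cast (ε i).ne_zero
    rw [map_mul, ic_La hL _ hne]
    rfl
  have hb0 : b = 0 := by
    refine gal_groups hLa b 1 (Or.inl ?_) (RingHom.id E) n ε (fun c hc => hind c hc) b ?_ ?_
    · intro W _ _ _ ρ _ g h
      rw [hcomm g h]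
    · refine ⟨1, fun i => MvPolynomial.X i, ?_, ?_⟩
      · intro i c hc s
        rw [MvPolynomial.support_X, Finset.mem_singleton] at hc
        rw [hc, Finsupp.single_apply]
        split_ifs <;> simp
      · intro i
        simp
    · exact hrel
  funext i
  have h1 := congrFun hb0 i
  simp only [hb, Pi.zero_apply, map_eq_zero] at h1
  exact PadicInt.coe_eq_zero.1 h1

end Pool.Agent.Y944.LC
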