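import Pool.Agent.Y944.LC.Uni

/-!
# Project LC, job LC-TA
-/

set_option autoImplicit false

namespace Pool.Agent.Y944.LC

open Finset NumberField NumberField.Units Filter Topology Pool.Agent.H637R2.Leo

variable (E : Type) [Field E] [NumberField E]

lemma exists_t0 (p : ℕ) (hp : p.Prime) : ∃ t : ℕ, 0 < t ∧
    ∀ w : (𝓞 E)ˣ, ((w : 𝓞 E)) ^ t - 1 ∈ (Ideal.span {((p : ℕ) : 𝓞 E)}).radical := by
  have hne : Ideal.span {((p : ℕ) : 𝓞 E)} ≠ ⊥ := by
    rw [Ne, Ideal.span_singleton_eq_bot]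
    exact_mod_cast hp.ne_zero
  haveI : Finite (𝓞 E ⧸ Ideal.span {((p : ℕ) : 𝓞 E)}) := Ideal.finiteQuotientOfFreeOfNeBot _ hne
  refine ⟨Nat.card (𝓞 E ⧸ Ideal.span {((p : ℕ) : 𝓞 E)})ˣ, Nat.card_pos, fun w => ?_⟩
  apply Ideal.le_radical
  rw [← Ideal.Quotient.eq_zero_iff_mem, map_sub, map_pow, map_one, sub_eq_zero]
  have h := pow_card_eq_one' (G := (𝓞 E ⧸ Ideal.span {((p : ℕ) : 𝓞 E)})ˣ)
    (x := Units.map (Ideal.Quotient.mk (Ideal.span {((p : ℕ) : 𝓞 E)})).toMonoidHom w)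
  exact congrArg Units.val h

lemma torsion_pth (p : ℕ) (hp : p.Prime) (h : ∀ ζ : (𝓞 E)ˣ, ζ ^ p = 1 → ζ = 1) (n : ℕ)
    (ζ : (𝓞 E)ˣ) (hζ : ζ ∈ torsion E) : ∃ w : (𝓞 E)ˣ, w ^ p ^ n = ζ := by
  have hcop : Nat.Coprime (p ^ n) (torsionOrder E) := by
    apply Nat.Coprime.pow_left
    rw [Nat.Prime.coprime_iff_not_dvd hp]
    intro hd
    haveI : Fact p.Prime := ⟨hp⟩
    obtain ⟨x, hx⟩ := exists_prime_orderOf_dvd_card' (G := torsion E) p hd
    have h1 : x ^ p = 1 := by rw [← hx]; exact pow_orderOf_eq_one x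
    have h2 : (x : (𝓞 E)ˣ) = 1 := h _ (congrArg Subtype.val h1)
    have h3 : x = 1 := Subtype.ext h2
    rw [h3, orderOf_one] at hx
    exact hp.one_lt.ne hx
  have h4 := torsion_pow E ζ hζ
  have hb := Nat.gcd_eq_gcd_ab (p ^ n) (torsionOrder E)
  rw [Nat.Coprime.gcd_eq_one hcop] at hb
  refine ⟨ζ ^ (Nat.gcdA (p ^ n) (torsionOrder E)), ?_⟩
  rw [← zpow_natCast, ← zpow_mul]
  have h5 : Nat.gcdA (p ^ n) (torsionOrder E) * ((p ^ n : ℕ) : ℤ) =
      1 - (torsionOrder E : ℤ) * Nat.gcdB (p ^ n) (torsionOrder E) := by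
    push_cast at hb ⊢
    linarith
  rw [h5, zpow_sub, zpow_one, zpow_mul, zpow_natCast, h4, one_zpow, inv_one, mul_one]

theorem ta : Pool.Agent.Y18.LC.TA := by
  intro E _ _ p hpf htors hleo n
  have hp : p.Prime := Fact.out
  by_contra hcon
  push Not at hcon
  choose u hu1 hu2 using hcon
  obtain ⟨t0, ht0, ht0w⟩ := exists_t0 E p hp
  set t : ℕ := t0 * torsionOrder E with ht
  have htpos : 0 < t := Nat.mul_pos ht0 (torsionOrder_pos E)
  -- the family
  set η : Fin (rank E) → (𝓞 E)ˣ := fun i => fundSystem E i ^ t with hη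
  -- compactness
  obtain ⟨a, φ, hφ, hlim⟩ := CompactSpace.tendsto_subseq
    (fun M : ℕ => fun i : Fin (rank E) => ((ex E (u M) i : ℤ) : ℤ_[p]))
  have hx : ∀ M, u M ^ t = ∏ i, η i ^ ex E (u M) i := by
    intro M
    have h1 : ∏ i, η i ^ ex E (u M) i = (∏ i, fundSystem E i ^ ex E (u M) i) ^ t := by
      rw [← Finset.prod_pow]
      refine Finset.prod_congr rfl fun i _ => ?_
      show (fundSystem E i ^ t) ^ ex E (u M) i = (fundSystem E i ^ ex E (u M) i) ^ t
      rw [← zpow_natCast, ← zpow_natCast, ← zpow_mul, ← zpow_mul, mul_comm]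
    rw [h1]
    conv_lhs => rw [ex_spec E (u M)]
    rw [mul_pow]
    have h2 : ((tp E (u M) : (𝓞 E)ˣ)) ^ t = 1 := by
      rw [ht, mul_comm t0, pow_mul, torsion_pow E _ (tp E (u M)).2, one_pow]
    rw [h2, one_mul]
  have ha := hleo (rank E) η ?_ ?_ a (fun k i => ex E (u (φ k)) i) ?_ ?_
  · -- conclusion
    rw [ha] at hlim
    have h1 : ∀ i, ∀ᶠ k in atTop, (p : ℤ) ^ n ∣ ex E (u (φ k)) i := by
      intro i
      have h2 : Tendsto (fun k => ‖((ex E (u (φ k)) i : ℤ) : ℤ_[p])‖) atTop (𝓝 0) := by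
        have h3 := (tendsto_pi_nhds.1 hlim i).norm
        simpa using h3
      have hpos : (0 : ℝ) < (p : ℝ) ^ (-(n : ℤ)) := by
        have : (0 : ℝ) < p := by exact_mod_cast hp.pos
        positivity
      filter_upwards [h2.eventually_lt_const hpos] with k hk
      have h4 := hk.le
      rw [PadicInt.norm_int_le_pow_iff_dvd] at h4
      exact_mod_cast h4
    obtain ⟨k, hk⟩ := (eventually_all.2 h1).exists
    choose d hd using hk
    obtain ⟨w, hw⟩ := torsion_pth E p hp htors n (tp E (u (φ k))) (tp E (u (φ k))).2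
    refine hu2 (φ k) (w * ∏ i, fundSystem E i ^ d i) ?_
    conv_rhs => rw [ex_spec E (u (φ k))]
    rw [mul_pow, hw, ← Finset.prod_pow]
    congr 1
    refine Finset.prod_congr rfl fun i _ => ?_
    rw [hd i, ← zpow_natCast, ← zpow_mul, mul_comm]
    push_cast
    rfl
  · -- congruence
    intro i
    have h1 := ht0w (fundSystem E i ^ torsionOrder E)
    have h2 : ((η i : (𝓞 E)ˣ) : 𝓞 E) = (((fundSystem E i ^ torsionOrder E : (𝓞 E)ˣ)) : 𝓞 E) ^ t0 := by
      rw [hη, ← Units.val_pow_eq_pow_val, ← pow_mul, ht, mul_comm]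
    rw [h2]
    exact h1
  · -- independence
    intro c hc
    have h1 : ∀ j, ex E (∏ i, η i ^ c i) j = 0 := by
      intro j
      rw [hc, ex_one]
    funext j
    have h2 := h1 j
    rw [ex_prod] at h2
    simp only [hη, ex_pow, ex_fund] at h2
    simp only [mul_ite, mul_one, mul_zero, Finset.sum_ite_eq', Finset.mem_univ, if_true] at h2
    rcases mul_eq_zero.1 h2 with h3 | h3
    · exact h3
    · exact absurd h3 (by exact_mod_cast htpos.ne')
  · -- limit
    intro i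
    exact tendsto_pi_nhds.1 hlim i
  · -- p-adic convergence
    intro N
    filter_upwards [eventually_ge_atTop N] with k hk
    rw [← hx (φ k)]
    have h1 : N ≤ φ k := hk.trans (hφ.id_le k)
    refine (pow_dvd_pow _ h1).trans ((hu1 (φ k)).trans ?_)
    rw [Units.val_pow_eq_pow_val]
    have := sub_dvd_pow_sub_pow ((u (φ k) : (𝓞 E)ˣ) : 𝓞 E) 1 t
    rwa [one_pow] at this

end Pool.Agent.Y944.LC
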