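import Pool.Agent.Y944.LC.Uni

/-!
# Project LC, job LC-TB
-/

set_option autoImplicit false

namespace Pool.Agent.Y944.LC

open Finset NumberField NumberField.Units Filter Topology Pool.Agent.H637R2.Leo

theorem tb : Pool.Agent.Y18.LC.TB := by
  intro E _ _ p _ htop n ε _ hε a m hlim hm
  refine padic_indep_of_int_indep p (fun i j => ex E (ε i) j) (fun c hc => indep_of_ex E ε hε c hc)
    a ?_
  intro j
  have hp : 1 < p := (Fact.out : p.Prime).one_lt
  have h1 : Tendsto (fun k => (((∑ i, m k i * ex E (ε i) j : ℤ)) : ℤ_[p])) atTop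
      (𝓝 (∑ i, a i * ((ex E (ε i) j : ℤ) : ℤ_[p]))) := by
    push_cast
    exact tendsto_finsetSum _ fun i _ => Tendsto.mul (hlim i) tendsto_const_nhds
  have h2 : ∀ s : ℕ, ‖∑ i, a i * ((ex E (ε i) j : ℤ) : ℤ_[p])‖ ≤ (p : ℝ) ^ (-(s : ℤ)) := by
    intro s
    refine le_of_tendsto h1.norm ?_
    obtain ⟨M, hM⟩ := htop s
    filter_upwards [hm M] with k hk
    obtain ⟨w, hw⟩ := hM _ hk
    rw [PadicInt.norm_int_le_pow_iff_dvd, ← ex_prod, ← hw, ex_pow]
    push_cast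
    exact dvd_mul_right _ _
  have h3 : Tendsto (fun s : ℕ => (p : ℝ) ^ (-(s : ℤ))) atTop (𝓝 0) := by
    have h4 : (fun s : ℕ => (p : ℝ) ^ (-(s : ℤ))) = fun s : ℕ => ((p : ℝ)⁻¹) ^ s := by
      funext s
      rw [zpow_neg, zpow_natCast, inv_pow]
    rw [h4]
    refine tendsto_pow_atTop_nhds_zero_of_lt_one (by positivity) ?_
    exact inv_lt_one_of_one_lt₀ (by exact_mod_cast hp)
  have h5 : ‖∑ i, a i * ((ex E (ε i) j : ℤ) : ℤ_[p])‖ ≤ 0 :=
    ge_of_tendsto h3 (Eventually.of_forall h2)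
  exact norm_le_zero_iff.1 h5

end Pool.Agent.Y944.LC
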