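import Pool.Agent.Y447.LC.RAM
import Pool.Agent.Y18.LC.Stm2

/-!
# Project LC, job LC-UNR: composites of unramified extensions
-/

set_option autoImplicit false

namespace Pool.Agent.Y944.LC

open NumberField IsDedekindDomain Pool.Agent.Y18.LC Pool.Agent.Y447.LC WithZero

/-- if `(q)` is radical then `q` is not in the square of a prime -/
lemma not_mem_sq {E : Type} [Field E] [NumberField E] {q : ℕ} (hq : q.Prime) (hU : Unram E q)
    (P : Ideal (𝓞 E)) (hP : P.IsPrime) : (q : 𝓞 E) ∉ P ^ 2 := by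
  intro hcon
  rw [← Ideal.dvd_span_singleton] at hcon
  obtain ⟨J, hJ⟩ := hcon
  have hq0 : Ideal.span {(q : 𝓞 E)} ≠ ⊥ := by
    rw [Ne, Ideal.span_singleton_eq_bot]
    exact_mod_cast hq.ne_zero
  have hPJ0 : P * J ≠ 0 := by
    intro h
    apply hq0
    rw [hJ, pow_two, mul_assoc, h, mul_zero]
    rfl
  have h3 : P * J ≤ Ideal.span {(q : 𝓞 E)} := by
    intro x hx
    apply hU
    refine ⟨2, ?_⟩
    have h4 : x ^ 2 ∈ (P * J) ^ 2 := Ideal.pow_mem_pow hx 2
    have h5 : (P * J) ^ 2 ≤ Ideal.span {(q : 𝓞 E)} := by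
      rw [hJ, mul_pow, pow_two J, ← mul_assoc]
      exact Ideal.mul_le_left (I := P ^ 2 * J) (J := J)
    exact h5 h4
  rw [← Ideal.dvd_iff_le, hJ, pow_two, mul_assoc] at h3
  obtain ⟨I, hI⟩ := h3
  have h6 : P * J * 1 = P * J * (P * I) := by
    rw [mul_one]
    calc P * J = P * (P * J) * I := hI
      _ = P * J * (P * I) := by ring
  have h7 := mul_left_cancel₀ hPJ0 h6
  have h8 : P ∣ 1 := ⟨I, h7⟩
  rw [Ideal.dvd_iff_le, Ideal.one_eq_top, top_le_iff] at h8
  exact hP.ne_top h8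

section
variable {k F : Type} [Field k] [NumberField k] [Field F] [NumberField F] [Algebra k F]
  {F₀ : IntermediateField ℚ F}

/-- every prime of the composite above `q` is unramified over `k` -/
lemma ram_idx_one (hG : IsGalois ℚ F₀) (htop : IntermediateField.adjoin k (F₀ : Set F) = ⊤)
    {q : ℕ} (hq : q.Prime) (hU : Unram F₀ q) (w : Ideal (𝓞 F)) [w.IsPrime] (hqw : (q : 𝓞 F) ∈ w) :
    w.ramificationIdx (𝓞 k) = 1 := by
  haveI := hG
  haveI : IsGalois k F := gal_comp hG htop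
  rw [← card_in (K := k) (E := F) w, Nat.card_eq_one_iff_unique]
  refine ⟨⟨?_⟩, ⟨1⟩⟩
  let w₀ : Ideal (𝓞 F₀) := w.comap (algebraMap (𝓞 F₀) (𝓞 F))
  haveI : w₀.IsPrime := Ideal.comap_isPrime _ _
  have hqw₀ : (q : 𝓞 F₀) ∈ w₀ := by
    rw [Ideal.mem_comap]
    simpa using hqw
  have h2 := card_in' (E := F₀) w₀
  rw [ram_one hq hU w₀ hqw₀, Nat.card_eq_one_iff_unique] at h2
  have key : ∀ g : w.inertia (F ≃ₐ[k] F), (g : F ≃ₐ[k] F) = 1 := by
    intro g
    have hg : res k F₀ hG (g : F ≃ₐ[k] F) ∈ w₀.inertia (F₀ ≃ₐ[ℚ] F₀) := by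
      intro x
      have h3 := g.2 (algebraMap (𝓞 F₀) (𝓞 F) x)
      show algebraMap (𝓞 F₀) (𝓞 F) (res k F₀ hG (g : F ≃ₐ[k] F) • x - x) ∈ w
      have h4 : algebraMap (𝓞 F₀) (𝓞 F) (res k F₀ hG (g : F ≃ₐ[k] F) • x - x) =
          (g : F ≃ₐ[k] F) • (algebraMap (𝓞 F₀) (𝓞 F) x) - algebraMap (𝓞 F₀) (𝓞 F) x := by
        rw [map_sub]
        congr 1
      rw [h4]
      exact h3
    have h5 : (⟨_, hg⟩ : w₀.inertia (F₀ ≃ₐ[ℚ] F₀)) = ⟨1, one_mem _⟩ := h2.1.elim _ _
    have h6 : res k F₀ hG (g : F ≃ₐ[k] F) = 1 := congrArg Subtype.val h5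
    exact res_inj hG htop (by rw [h6, map_one])
  intro a b
  exact Subtype.ext ((key a).trans (key b).symm)

end

/-- the valuation of `q` at an unramified prime -/
lemma val_q {E : Type} [Field E] [NumberField E] {q : ℕ} (hq : q.Prime) (hU : Unram E q)
    (v : HeightOneSpectrum (𝓞 E)) : exp (-1 : ℤ) ≤ v.intValuation (q : 𝓞 E) := by
  have hq0 : (q : 𝓞 E) ≠ 0 := by exact_mod_cast hq.ne_zero
  have h1 := not_mem_sq hq hU v.asIdeal v.isPrime
  rw [← v.intValuation_le_pow_iff_mem] at h1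
  rw [v.intValuation_if_neg hq0] at h1 ⊢
  rw [exp_le_exp] at h1 ⊢
  push_cast at h1
  omega

theorem unr : Pool.Agent.Y18.LC.UNR := by
  intro k F _ _ _ _ _ F₀ hG htop q hq hU hUk
  have hq0F : (q : 𝓞 F) ≠ 0 := by exact_mod_cast hq.ne_zero
  intro x hx
  obtain ⟨r, hr⟩ := hx
  have key : ∀ W : HeightOneSpectrum (𝓞 F), W.intValuation x ≤ W.intValuation (q : 𝓞 F) := by
    intro W
    by_cases hqW : (q : 𝓞 F) ∈ W.asIdeal
    · have hqv : (q : 𝓞 k) ∈ W.asIdeal.comap (algebraMap (𝓞 k) (𝓞 F)) := by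
        rw [Ideal.mem_comap]
        simpa using hqW
      let v : HeightOneSpectrum (𝓞 k) := ⟨W.asIdeal.comap (algebraMap (𝓞 k) (𝓞 F)),
        Ideal.comap_isPrime _ _, by
          intro h
          rw [h, Ideal.mem_bot] at hqv
          exact hq.ne_zero (by exact_mod_cast hqv)⟩
      haveI : W.asIdeal.LiesOver v.asIdeal := ⟨rfl⟩
      have hone : v.asIdeal.ramificationIdx' W.asIdeal = 1 := by
        rw [Ideal.ramificationIdx'_eq_ramificationIdx v.asIdeal W.asIdeal v.ne_bot]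
        exact ram_idx_one hG htop hq hU W.asIdeal hqW
      have h1 := HeightOneSpectrum.intValuation_liesOver v W (q : 𝓞 k)
      rw [hone, pow_one, map_natCast (algebraMap (𝓞 k) (𝓞 F))] at h1
      rw [← h1]
      refine le_trans ?_ (val_q hq hUk v)
      have h2 : x ∈ W.asIdeal ^ 1 := by
        rw [pow_one]
        refine W.isPrime.mem_of_pow_mem r ?_
        have h3 : Ideal.span {(q : 𝓞 F)} ≤ W.asIdeal := by
          rwa [Ideal.span_singleton_le_iff_mem]
        exact h3 hr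
      rw [← W.intValuation_le_pow_iff_mem] at h2
      exact_mod_cast h2
    · rw [HeightOneSpectrum.intValuation_eq_one_iff.2 hqW]
      exact W.intValuation_le_one x
  have hmem : ((x : F) / ((q : 𝓞 F) : F)) ∈ (algebraMap (𝓞 F) F).range := by
    refine HeightOneSpectrum.mem_integers_of_valuation_le_one F _ fun W => ?_
    rw [map_div₀, HeightOneSpectrum.valuation_of_algebraMap, HeightOneSpectrum.valuation_of_algebraMap]
    exact div_le_one_of_le₀ (key W) zero_le'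
  obtain ⟨y, hy⟩ := hmem
  rw [Ideal.mem_span_singleton]
  refine ⟨y, ?_⟩
  apply RingOfIntegers.coe_injective
  have hqF : ((q : 𝓞 F) : F) ≠ 0 := by
    rw [Ne, RingOfIntegers.coe_eq_zero_iff]
    exact hq0F
  rw [map_mul, hy]
  field_simp

end Pool.Agent.Y944.LC
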