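import Pool.Agent.Y18.LC.Stm

/-!
# Project LC: exponents of units in the fundamental system
-/

set_option autoImplicit false

namespace Pool.Agent.Y944.LC

open Finset NumberField NumberField.Units

variable (E : Type) [Field E] [NumberField E]

/-- the exponents of a unit -/
noncomputable def ex (x : (𝓞 E)ˣ) : Fin (rank E) → ℤ :=
  (exist_unique_eq_mul_prod E x).choose.2

/-- the torsion part -/
noncomputable def tp (x : (𝓞 E)ˣ) : torsion E := (exist_unique_eq_mul_prod E x).choose.1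

lemma ex_spec (x : (𝓞 E)ˣ) : x = (tp E x : (𝓞 E)ˣ) * ∏ i, fundSystem E i ^ ex E x i :=
  (exist_unique_eq_mul_prod E x).choose_spec.1

lemma ex_uniq (x : (𝓞 E)ˣ) (ζ : (𝓞 E)ˣ) (hζ : ζ ∈ torsion E) (e : Fin (rank E) → ℤ)
    (h : x = ζ * ∏ i, fundSystem E i ^ e i) : ex E x = e := by
  have h1 := (exist_unique_eq_mul_prod E x).choose_spec.2 (⟨ζ, hζ⟩, e) h
  have h2 := congrArg Prod.snd h1
  exact h2.symm

lemma ex_one (j : Fin (rank E)) : ex E 1 j = 0 := by
  rw [ex_uniq E 1 1 (one_mem _) (fun _ => 0) (by simp)]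

lemma ex_mul (x y : (𝓞 E)ˣ) (j : Fin (rank E)) : ex E (x * y) j = ex E x j + ex E y j := by
  rw [ex_uniq E (x * y) (tp E x * tp E y) (mul_mem (tp E x).2 (tp E y).2)
    (fun j => ex E x j + ex E y j)]
  conv_lhs => rw [ex_spec E x, ex_spec E y]
  simp only [zpow_add]
  rw [Finset.prod_mul_distrib]
  exact mul_mul_mul_comm _ _ _ _

/-- the exponents, as a homomorphism -/
noncomputable def exh (j : Fin (rank E)) : (𝓞 E)ˣ →* Multiplicative ℤ where
  toFun x := Multiplicative.ofAdd (ex E x j)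
  map_one' := by rw [ex_one]; rfl
  map_mul' x y := by rw [ex_mul, ofAdd_add]

lemma ex_zpow (x : (𝓞 E)ˣ) (c : ℤ) (j : Fin (rank E)) : ex E (x ^ c) j = c * ex E x j := by
  have h := (exh E j).map_zpow x c
  have h2 : ex E (x ^ c) j = Multiplicative.toAdd ((exh E j) (x ^ c)) := rfl
  rw [h2, h, toAdd_zpow, smul_eq_mul]
  rfl

lemma ex_pow (x : (𝓞 E)ˣ) (c : ℕ) (j : Fin (rank E)) : ex E (x ^ c) j = c * ex E x j := by
  rw [← zpow_natCast, ex_zpow]

lemma ex_prod {n : ℕ} (ε : Fin n → (𝓞 E)ˣ) (c : Fin n → ℤ) (j : Fin (rank E)) :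
    ex E (∏ i, ε i ^ c i) j = ∑ i, c i * ex E (ε i) j := by
  have h2 : ex E (∏ i, ε i ^ c i) j = Multiplicative.toAdd ((exh E j) (∏ i, ε i ^ c i)) := rfl
  rw [h2, map_prod, toAdd_prod]
  refine Finset.sum_congr rfl fun i _ => ?_
  rw [← ex_zpow]
  rfl

lemma ex_eq_zero_iff (x : (𝓞 E)ˣ) : (∀ j, ex E x j = 0) ↔ x ∈ torsion E := by
  constructor
  · intro h
    rw [ex_spec E x]
    simp only [h, zpow_zero, Finset.prod_const_one, mul_one]
    exact (tp E x).2
  · intro h j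
    rw [ex_uniq E x x h (fun _ => 0) (by simp)]

lemma ex_fund (i j : Fin (rank E)) : ex E (fundSystem E i) j = if i = j then 1 else 0 := by
  rw [ex_uniq E (fundSystem E i) 1 (one_mem _) (fun j => if i = j then 1 else 0)]
  rw [one_mul]
  have h : ∀ j, fundSystem E j ^ (if i = j then (1 : ℤ) else 0) =
      if i = j then fundSystem E j else 1 := by
    intro j
    split_ifs <;> simp
  rw [Finset.prod_congr rfl fun j _ => h j, Finset.prod_ite_eq]
  simp

lemma torsion_pow (x : (𝓞 E)ˣ) (hx : x ∈ torsion E) : x ^ torsionOrder E = 1 := by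
  have h := pow_card_eq_one' (G := torsion E) (x := ⟨x, hx⟩)
  exact congrArg Subtype.val h

lemma pow_torsionOrder_of_ex (x y : (𝓞 E)ˣ) (h : ∀ j, ex E x j = ex E y j) :
    ∃ ζ ∈ torsion E, x = ζ * y := by
  refine ⟨x * y⁻¹, ?_, by group⟩
  rw [← ex_eq_zero_iff]
  intro j
  rw [ex_mul, ← zpow_neg_one, ex_zpow, h j]
  ring

lemma indep_of_ex {n : ℕ} (ε : Fin n → (𝓞 E)ˣ)
    (hε : ∀ c : Fin n → ℤ, ∏ i, ε i ^ c i = 1 → c = 0) (c : Fin n → ℤ)
    (h : ∀ j, ∑ i, c i * ex E (ε i) j = 0) : c = 0 := by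
  have h1 : ∏ i, ε i ^ c i ∈ torsion E := by
    rw [← ex_eq_zero_iff]
    intro j
    rw [ex_prod, h j]
  have h2 := torsion_pow E _ h1
  have h3 : ∏ i, ε i ^ (c i * (torsionOrder E : ℤ)) = 1 := by
    rw [← h2, ← Finset.prod_pow]
    refine Finset.prod_congr rfl fun i _ => ?_
    rw [zpow_mul, zpow_natCast]
  have h4 := hε _ h3
  funext i
  have h5 := congrFun h4 i
  have h6 : (torsionOrder E : ℤ) ≠ 0 := by exact_mod_cast torsionOrder_ne_zero E
  rcases mul_eq_zero.1 h5 with h | h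
  · exact h
  · exact absurd h h6

end Pool.Agent.Y944.LC
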